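import Mathlib

/-!
# MP_bf3fd1_co: digraphs of large girth and minimum out-degree `2k-2` without `k` disjoint cycles

For `k ≥ 1` and `t ≥ 1` let `H` have `2k-1` vertices. For every `h ∈ H` there are `t` layers of `2k-2` vertices;
`h` sends arcs to the whole first layer, every layer is complete to the next one, and the last layer
is complete to `H ∖ {h}`. All out-degrees are `2k-2`, and every cycle contains at least two vertices of `H`,
so there are at most `k-1` disjoint cycles.
-/

set_option autoImplicit false

namespace Pool.Agent.Results.MP_bf3fd1_co.Counterexample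

/-- A directed cycle of the digraph with arc relation `A`: a cyclic list of at least one vertex,
without repetition, in which every vertex sends an arc to the next one. -/
def IsDirCycle {V : Type} (A : V → V → Prop) (c : Cycle V) : Prop :=
  c ≠ Cycle.nil ∧ c.Nodup ∧ c.Chain A

/-- The digraph contains `k` pairwise vertex-disjoint directed cycles. -/
def HasDisjointCycles {V : Type} (A : V → V → Prop) (k : ℕ) : Prop :=
  ∃ c : Fin k → Cycle V, (∀ i, IsDirCycle A (c i)) ∧
    ∀ i j, i ≠ j → ∀ x, x ∈ c i → x ∉ c j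

/-- The vertices: `inl h` are the vertices of `H`, `inr (h, s, i)` is the `i`-th vertex in layer `s` of `h`. -/
abbrev W (k t : ℕ) : Type := Fin (2 * k - 1) ⊕ (Fin (2 * k - 1) × Fin t × Fin (2 * k - 2))

/-- The arcs. -/
def Arc (k t : ℕ) : W k t → W k t → Prop
  | .inl _, .inl _ => False
  | .inl h, .inr (h', s, _) => h' = h ∧ s.val = 0
  | .inr (h, s, _), .inr (h', s', _) => h' = h ∧ s'.val = s.val + 1
  | .inr (h, s, _), .inl h' => h' ≠ h ∧ s.val + 1 = t

/-- position of a vertex: `0` for `H`, `s + 1` for layer `s` -/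
def pos {k t : ℕ} : W k t → ℕ
  | .inl _ => 0
  | .inr (_, s, _) => s.val + 1

/-- the vertex of `H` that a vertex belongs to -/
def own {k t : ℕ} : W k t → Fin (2 * k - 1)
  | .inl h => h
  | .inr (h, _, _) => h

theorem pos_le {k t : ℕ} (x : W k t) : pos x ≤ t := by
  rcases x with h | ⟨h, s, i⟩
  · simp [pos]
  · have := s.2
    simp only [pos]
    omega

theorem exists_succ_list {V : Type} {A : V → V → Prop} (b : V) : ∀ l : List V,
    List.IsChain A (l ++ [b]) → ∀ x ∈ l, ∃ y, (y ∈ l ∨ y = b) ∧ A x y
  | [], _, x, hx => by simp at hx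
  | [a], hc, x, hx => by
      simp only [List.mem_singleton] at hx
      subst hx
      refine ⟨b, Or.inr rfl, ?_⟩
      simpa using hc
  | a :: a' :: l, hc, x, hx => by
      have hc' : A a a' ∧ List.IsChain A ((a' :: l) ++ [b]) := by
        simpa [List.isChain_cons_cons] using hc
      rcases List.mem_cons.1 hx with rfl | hx
      · exact ⟨a', Or.inl (by simp), hc'.1⟩
      · obtain ⟨y, hy, hA⟩ := exists_succ_list b (a' :: l) hc'.2 x hx
        refine ⟨y, ?_, hA⟩
        rcases hy with hy | hy
        · exact Or.inl (List.mem_cons_of_mem _ hy)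
        · exact Or.inr hy

theorem exists_succ {V : Type} {A : V → V → Prop} {c : Cycle V} (hc : c.Chain A) (x : V) (hx : x ∈ c) :
    ∃ y ∈ c, A x y := by
  induction c with
  | nil => exact absurd hx (Cycle.notMem_nil x)
  | cons a l _ =>
    rw [Cycle.chain_coe_cons] at hc
    obtain ⟨y, hy, hA⟩ := exists_succ_list a (a :: l) (by simpa using hc) x (by simpa using hx)
    refine ⟨y, ?_, hA⟩
    rcases hy with hy | hy
    · exact Cycle.mem_coe_iff.2 hy
    · subst hy
      exact Cycle.mem_coe_iff.2 (List.mem_cons_self)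

/-- Following a cycle one leaves the layers of `own x` through all later layers. -/
theorem reach {k t : ℕ} {c : Cycle (W k t)} (ht : 1 ≤ t) (hc : c.Chain (Arc k t)) :
    ∀ (m : ℕ) (x : W k t), x ∈ c → m + pos x = t →
      (∃ h', Sum.inl h' ∈ c ∧ h' ≠ own x) ∧
        ∀ j, pos x ≤ j → j ≤ t → ∃ y ∈ c, own y = own x ∧ pos y = j := by
  intro m
  induction m with
  | zero =>
    intro x hx hm
    obtain ⟨y, hy, hA⟩ := exists_succ hc x hx
    refine ⟨?_, fun j h1 h2 => ⟨x, hx, rfl, by omega⟩⟩
    rcases x with h | ⟨h, s, i⟩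
    · simp only [pos] at hm
      omega
    · rcases y with h' | ⟨h', s', i'⟩
      · exact ⟨h', hy, hA.1⟩
      · exfalso
        have h1 := hA.2
        have h2 := s'.2
        simp only [pos] at hm
        omega
  | succ m ih =>
    intro x hx hm
    obtain ⟨y, hy, hA⟩ := exists_succ hc x hx
    have key : own y = own x ∧ pos y = pos x + 1 := by
      rcases x with h | ⟨h, s, i⟩
      · rcases y with h' | ⟨h', s', i'⟩
        · exact absurd hA (by simp [Arc])
        · exact ⟨hA.1, by simpa [pos] using hA.2⟩
      · rcases y with h' | ⟨h', s', i'⟩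
        · exfalso
          have h1 := hA.2
          simp only [pos] at hm
          omega
        · exact ⟨hA.1, by simpa [pos] using hA.2⟩
    obtain ⟨⟨h', hh', hne⟩, hall⟩ := ih y hy (by omega)
    refine ⟨⟨h', hh', by rwa [← key.1]⟩, fun j h1 h2 => ?_⟩
    rcases Nat.eq_or_lt_of_le h1 with h | h
    · exact ⟨x, hx, rfl, h⟩
    · obtain ⟨z, hz, hz1, hz2⟩ := hall j (by omega) h2
      exact ⟨z, hz, hz1.trans key.1, hz2⟩

theorem exists_inl {k t : ℕ} {c : Cycle (W k t)} (ht : 1 ≤ t) (hc : IsDirCycle (Arc k t) c) :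
    ∃ h, Sum.inl h ∈ c := by
  obtain ⟨hne, -, hch⟩ := hc
  have : ∃ x, x ∈ c := by
    induction c with
    | nil => exact absurd rfl hne
    | cons a l _ => exact ⟨a, Cycle.mem_coe_iff.2 List.mem_cons_self⟩
  obtain ⟨x, hx⟩ := this
  obtain ⟨⟨h, hh, -⟩, -⟩ := reach ht hch (t - pos x) x hx (by have := pos_le x; omega)
  exact ⟨h, hh⟩

theorem exists_two {k t : ℕ} {c : Cycle (W k t)} (ht : 1 ≤ t) (hc : IsDirCycle (Arc k t) c) :
    ∃ f : Bool → Fin (2 * k - 1), Function.Injective f ∧ ∀ b, Sum.inl (f b) ∈ c := by
  obtain ⟨h, hh⟩ := exists_inl ht hc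
  obtain ⟨⟨h', hh', hne⟩, -⟩ := reach ht hc.2.2 t _ hh (by simp [pos])
  refine ⟨fun b => if b then h else h', ?_, ?_⟩
  · intro b b' hb
    have hne' : h' ≠ h := hne
    cases b <;> cases b' <;> simp_all
  · intro b
    cases b
    · simpa using hh'
    · simpa using hh

theorem not_has {k t : ℕ} (hk : 1 ≤ k) (ht : 1 ≤ t) : ¬ HasDisjointCycles (Arc k t) k := by
  rintro ⟨c, hc, hd⟩
  choose f hf hm using fun i => exists_two ht (hc i)
  have hinj : Function.Injective (fun p : Fin k × Bool => f p.1 p.2) := by
    rintro ⟨i, b⟩ ⟨j, b'⟩ h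
    simp only at h
    by_cases hij : i = j
    · subst hij
      rw [hf i h]
    · exfalso
      refine hd i j hij _ (hm i b) ?_
      rw [h]
      exact hm j b'
  have := Fintype.card_le_of_injective _ hinj
  simp only [Fintype.card_prod, Fintype.card_fin, Fintype.card_bool] at this
  omega

theorem length_ge {k t : ℕ} (ht : 1 ≤ t) {c : Cycle (W k t)} (hc : IsDirCycle (Arc k t) c) :
    t + 1 ≤ c.length := by
  classical
  obtain ⟨h, hh⟩ := exists_inl ht hc
  obtain ⟨-, hall⟩ := reach ht hc.2.2 t _ hh (by simp [pos])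
  have hall' : ∀ j : Fin (t + 1), ∃ y : W k t, y ∈ c ∧ pos y = j.val := by
    intro j
    obtain ⟨y, hy, -, hy2⟩ := hall j.val (by simp [pos]) (by have := j.2; omega)
    exact ⟨y, hy, hy2⟩
  choose y hy hy2 using hall'
  have hinj : Function.Injective y := by
    intro i j hij
    have h1 := hy2 i
    rw [hij, hy2 j] at h1
    exact Fin.ext h1.symm
  have hcard : (Finset.univ : Finset (Fin (t + 1))).card ≤ c.toMultiset.toFinset.card := by
    refine Finset.card_le_card_of_injOn y ?_ hinj.injOn
    intro j _
    have hj := hy j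
    simp only [Finset.mem_coe, Multiset.mem_toFinset]
    induction c with
    | nil => exact absurd hj (Cycle.notMem_nil _)
    | cons a l _ => exact hj
  have h2 : c.toMultiset.toFinset.card ≤ c.length := by
    rw [← Cycle.card_toMultiset]
    exact Multiset.toFinset_card_le _
  simpa using hcard.trans h2

theorem degree {k t : ℕ} (ht : 1 ≤ t) (v : W k t) : {w | Arc k t v w}.ncard = 2 * k - 2 := by
  classical
  rcases v with h | ⟨h, s, i⟩
  · have h0 : {w | Arc k t (.inl h) w} =
        Set.range (fun j : Fin (2 * k - 2) => (Sum.inr (h, (⟨0, ht⟩ : Fin t), j) : W k t)) := by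
      ext w
      rcases w with h' | ⟨h', s', i'⟩
      · simp [Arc]
      · simp only [Set.mem_ofPred_eq, Arc, Set.mem_range, Sum.inr.injEq, Prod.mk.injEq, Fin.ext_iff]
        constructor
        · rintro ⟨h1, h2⟩
          exact ⟨i', h1.symm, h2.symm, rfl⟩
        · rintro ⟨j, h1, h2, -⟩
          exact ⟨h1.symm, h2.symm⟩
    rw [h0, ← Set.image_univ, Set.ncard_image_of_injective _ (by
      intro a b hab
      simpa using hab), Set.ncard_univ, Nat.card_eq_fintype_card, Fintype.card_fin]
  · by_cases hs : s.val + 1 = t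
    · have h0 : {w | Arc k t (.inr (h, s, i)) w} =
          (Sum.inl : Fin (2 * k - 1) → W k t) '' {h' | h' ≠ h} := by
        ext w
        rcases w with h' | ⟨h', s', i'⟩
        · simp [Arc, hs]
        · simp only [Set.mem_ofPred_eq, Arc, Set.mem_image, reduceCtorEq, and_false, exists_false,
            iff_false]
          intro h1
          have := s'.2
          omega
      rw [h0, Set.ncard_image_of_injective _ Sum.inl_injective]
      have h3 : ({h' : Fin (2 * k - 1) | h' ≠ h}).ncard = (Finset.univ.erase h).card := by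
        rw [← Set.ncard_coe_finset]
        congr 1
        ext x
        simp
      rw [h3, Finset.card_erase_of_mem (Finset.mem_univ _), Finset.card_univ, Fintype.card_fin]
      omega
    · have hs2 : s.val + 1 < t := by
        have := s.2
        omega
      have h0 : {w | Arc k t (.inr (h, s, i)) w} = Set.range (fun j : Fin (2 * k - 2) =>
          (Sum.inr (h, (⟨s.val + 1, hs2⟩ : Fin t), j) : W k t)) := by
        ext w
        rcases w with h' | ⟨h', s', i'⟩
        · simp only [Set.mem_ofPred_eq, Arc, Set.mem_range, reduceCtorEq, exists_false, iff_false]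
          intro h1
          exact hs h1.2
        · simp only [Set.mem_ofPred_eq, Arc, Set.mem_range, Sum.inr.injEq, Prod.mk.injEq,
            Fin.ext_iff]
          constructor
          · rintro ⟨h1, h2⟩
            exact ⟨i', h1.symm, h2.symm, rfl⟩
          · rintro ⟨j, h1, h2, -⟩
            exact ⟨h1.symm, h2.symm⟩
      rw [h0, ← Set.image_univ, Set.ncard_image_of_injective _ (by
        intro a b hab
        simpa using hab), Set.ncard_univ, Nat.card_eq_fintype_card, Fintype.card_fin]

theorem result : ∀ k g : ℕ, 1 ≤ k → ∃ (V : Type) (_ : Fintype V) (A : V → V → Prop),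
    (∀ v, ¬ A v v) ∧ (∀ u v, A u v → ¬ A v u) ∧
    (∀ c : Cycle V, IsDirCycle A c → g ≤ c.length) ∧
    (∀ v, {w | A v w}.ncard = 2 * k - 2) ∧ ¬ HasDisjointCycles A k := by
  intro k g hk
  refine ⟨W k (g + 1), inferInstance, Arc k (g + 1), ?_, ?_, fun c hc => ?_,
    degree (by omega), not_has hk (by omega)⟩
  · rintro (h | ⟨h, s, i⟩) hA
    · exact hA
    · have := hA.2
      omega
  · rintro (h | ⟨h, s, i⟩) (h' | ⟨h', s', i'⟩) hA hB
    · exact hA
    · exact hB.1 hA.1.symm
    · exact hA.1 hB.1.symm
    · have h1 := hA.2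
      have h2 := hB.2
      omega
  · have := length_ge (by omega) hc
    omega

end Pool.Agent.Results.MP_bf3fd1_co.Counterexample
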